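import Pool.Agent.IC61.Mn3

set_option autoImplicit false

namespace Pool.Agent.Results.MP_0d1f6d_an.FourIntervals

open MeasureTheory Pool.Agent.H51.Iet

/-- Let `σ` be any irreducible permutation of four letters. If an analytic curve of positive length
vectors on an open interval `J` is contained in no proper linear subspace of `ℝ⁴` (in particular if
it is contained in no proper affine subspace), then almost every point of the curve is uniquely
ergodic. -/
theorem result (σ : Equiv.Perm (Fin 4)) (hσ : IrreduciblePerm σ)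
    (J : Set ℝ) (hJ : IsOpen J) (hJc : J.OrdConnected) (a : ℝ → Fin 4 → ℝ)
    (han : AnalyticOn ℝ a J) (hpos : ∀ s ∈ J, ∀ i, 0 < a s i)
    (hnd : ∀ P : Submodule ℝ (Fin 4 → ℝ), a '' J ⊆ P → P = ⊤) :
    volume {s | s ∈ J ∧ ¬ UniquelyErgodic σ (a s)} = 0 :=
  Pool.Agent.IC61.four σ hσ J hJ hJc a han hpos hnd

end Pool.Agent.Results.MP_0d1f6d_an.FourIntervals
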