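import Pool.Agent.H51.IetCurve

set_option autoImplicit false

namespace Pool.Agent.Results.MP_0d1f6d_an.GenusOneCurves

open Pool.Agent.H51.Iet

/-- Let `σ` be an irreducible permutation of `d ≥ 2` letters whose translation matrix has rank at
most two (genus one), or let `d ≤ 3`. If an analytic curve of length vectors on an open interval `J`
is contained in no proper affine subspace, then all but countably many of its points are uniquely
ergodic. -/
theorem result (d : ℕ) (hd : 2 ≤ d) (σ : Equiv.Perm (Fin d)) (hσ : IrreduciblePerm σ)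
    (hgenus : (translationMatrix σ).rank ≤ 2 ∨ d ≤ 3)
    (J : Set ℝ) (hJ : IsOpen J) (hJc : J.OrdConnected) (a : ℝ → Fin d → ℝ)
    (han : AnalyticOn ℝ a J) (hpos : ∀ s ∈ J, ∀ i, 0 < a s i)
    (hnd : ∀ P : AffineSubspace ℝ (Fin d → ℝ), a '' J ⊆ P → P = ⊤) :
    {s | s ∈ J ∧ ¬ UniquelyErgodic σ (a s)}.Countable :=
  curve hd σ hσ hgenus J hJ hJc a han hpos hnd

end Pool.Agent.Results.MP_0d1f6d_an.GenusOneCurves
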